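import Pool.Agent.H207.TP.Stm

/-!
# Task ATT1: attracted points, from the sphere to the plane (helper339)
-/

set_option autoImplicit false

open Metric Set MeasureTheory Filter Topology Polynomial
open scoped OnePoint

namespace Pool.Agent.H339.TP207

open Pool.Agent.H792R2.CE
open Pool.Agent.H207.TP

lemma Mh_of_ne {b z : ℂ} (h : z ≠ b) : Mh b z = ((M b z : ℂ) : OnePoint ℂ) := by
  unfold Mh
  rw [if_neg h]

lemma Mh_self (b : ℂ) : Mh b b = ∞ := by
  unfold Mh
  rw [if_pos rfl]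

lemma Mh_ne_infty {b z : ℂ} (h : Mh b z ≠ ∞) : z ≠ b := by
  rintro rfl
  exact h (Mh_self z)

lemma Mh_inj (b : ℂ) : Function.Injective (Mh b) := by
  intro x y h
  by_cases hx : x = b
  · by_cases hy : y = b
    · rw [hx, hy]
    · rw [hx, Mh_self, Mh_of_ne hy] at h
      exact (OnePoint.coe_ne_infty _ h.symm).elim
  · by_cases hy : y = b
    · rw [hy, Mh_self, Mh_of_ne hx] at h
      exact (OnePoint.coe_ne_infty _ h).elim
    · rw [Mh_of_ne hx, Mh_of_ne hy, OnePoint.coe_eq_coe] at h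
      have h1 : x - b = y - b := inv_injective h
      exact sub_left_injective h1

lemma iter_Mh {d : ℕ} {b : ℂ} {T : ℂ[X]}
    (h : ∀ z : ℂ, sph d (X ^ d) (DQ d b T) (Mh b z) = Mh b (T.eval z)) (z : ℂ) (k : ℕ) :
    (sph d (X ^ d) (DQ d b T))^[k] (Mh b z) = Mh b ((ev T)^[k] z) := by
  induction k with
  | zero => rfl
  | succ k ih =>
    rw [Function.iterate_succ_apply', ih, h, Function.iterate_succ_apply']
    rfl

lemma tends_M {b w : ℂ} {y : ℕ → ℂ}
    (h : Tendsto (fun k => Mh b (y k)) atTop (𝓝 (w : OnePoint ℂ))) :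
    (∀ᶠ k in atTop, y k ≠ b) ∧ Tendsto (fun k => M b (y k)) atTop (𝓝 w) := by
  have h1 : ∀ᶠ k in atTop, Mh b (y k) ≠ ∞ :=
    h.eventually (isOpen_ne.mem_nhds (OnePoint.coe_ne_infty w))
  have h2 : ∀ᶠ k in atTop, y k ≠ b := h1.mono fun k hk => Mh_ne_infty hk
  refine ⟨h2, ?_⟩
  have h3 : Tendsto (fun k => ((M b (y k) : ℂ) : OnePoint ℂ)) atTop (𝓝 (w : OnePoint ℂ)) :=
    h.congr' (h2.mono fun k hk => Mh_of_ne hk)
  exact (OnePoint.isOpenEmbedding_coe.isInducing.tendsto_nhds_iff).2 h3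

theorem t_ATT1 (h1 : S_SPH) (h2 : S_ITD) (h3 : S_ESCB) : S_ATT1 := by
  intro d b T hd hT z hatt
  obtain ⟨n, hn, w₀, hinf, hper, hder, hlim⟩ := hatt
  have hS := (h1 d b T hd hT).1
  simp only [iter_Mh hS] at hlim
  obtain ⟨hne, hM⟩ := tends_M hlim
  by_cases hw : w₀ = 0
  · left
    by_contra hesc
    obtain ⟨R, hR, hbd⟩ := (h3 T (by omega)).2
    have hb := hbd z hesc
    rw [hw] at hM
    have hpos : 0 < (R + ‖b‖ + 1)⁻¹ := by
      have := norm_nonneg b
      positivity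
    have hev : ∀ᶠ k in atTop, ‖M b ((ev T)^[n * k] z)‖ < (R + ‖b‖ + 1)⁻¹ := by
      have := hM.norm
      rw [norm_zero] at this
      exact this.eventually (gt_mem_nhds hpos)
    obtain ⟨k, hk1, hk2⟩ := (hne.and hev).exists
    have e1 : ‖(ev T)^[n * k] z - b‖ ≤ R + ‖b‖ := (norm_sub_le _ _).trans (by linarith [hb (n * k)])
    have e2 : 0 < ‖(ev T)^[n * k] z - b‖ := norm_pos_iff.2 (sub_ne_zero.2 hk1)
    rw [M, norm_inv] at hk2
    have e3 := (inv_lt_inv₀ e2 (inv_pos.1 hpos)).1 hk2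
    linarith
  · right
    obtain ⟨x, hx⟩ : ∃ x, x = b + w₀⁻¹ := ⟨_, rfl⟩
    have hxb : x ≠ b := by
      rw [hx]
      intro h
      exact hw (inv_eq_zero.1 (by linear_combination h))
    have hMx : M b x = w₀ := by
      rw [M, hx, add_sub_cancel_left, inv_inv]
    have hMhx : Mh b x = ((w₀ : ℂ) : OnePoint ℂ) := by rw [Mh_of_ne hxb, hMx]
    have horb : ∀ i, (ev T)^[i] x ≠ b := by
      intro i
      apply Mh_ne_infty
      rw [← iter_Mh hS, hMhx]
      exact hinf i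
    have hxn : (ev T)^[n] x = x := by
      apply Mh_inj b
      rw [← iter_Mh hS, hMhx]
      exact hper
    refine ⟨n, hn, x, hxn, ?_, ?_⟩
    · have h4 := (h2 d b T (by omega) hT.le x n fun j _ => horb j).2 (horb n) hxb
      rw [hMx, hxn, div_self (sub_ne_zero.2 hxb), one_pow, mul_one] at h4
      rw [← h4]
      exact hder
    · have h5 : Tendsto (fun k => b + (M b ((ev T)^[n * k] z))⁻¹) atTop (𝓝 (b + w₀⁻¹)) :=
        tendsto_const_nhds.add (hM.inv₀ hw)
      rw [hx]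
      refine h5.congr fun k => ?_
      rw [M, inv_inv]
      ring

end Pool.Agent.H339.TP207
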